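import Pool.Agent.helper65.SV.SpecE

/-!
# sv:PIN — interpolation by polynomials with distinct roots
-/

set_option autoImplicit false

namespace Pool.Agent.SV

open Polynomial

theorem PIN_choose (I : Type) [Fintype I] [DecidableEq I] (Q : I → Polynomial ℂ → Prop)
    (hQ : ∀ (i : I) (Z : Finset ℂ), ∃ h : Polynomial ℂ, Q i h ∧ Disjoint h.roots.toFinset Z) :
    ∃ h : I → Polynomial ℂ, (∀ i, Q i (h i)) ∧
      ∀ i j, i ≠ j → Disjoint (h i).roots.toFinset (h j).roots.toFinset := by
  have key : ∀ s : Finset I, ∃ h : I → Polynomial ℂ, (∀ i ∈ s, Q i (h i)) ∧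
      ∀ i ∈ s, ∀ j ∈ s, i ≠ j → Disjoint (h i).roots.toFinset (h j).roots.toFinset := by
    intro s
    induction s using Finset.induction_on with
    | empty => exact ⟨fun _ => 0, by simp, by simp⟩
    | insert a s ha ih =>
      obtain ⟨h, h1, h2⟩ := ih
      obtain ⟨g, hg, hd⟩ := hQ a (s.biUnion fun j => (h j).roots.toFinset)
      have hd' : ∀ j ∈ s, Disjoint g.roots.toFinset (h j).roots.toFinset := by
        intro j hj
        exact Finset.disjoint_of_subset_right (Finset.subset_biUnion_of_mem (fun j => (h j).roots.toFinset) hj) hd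
      have hne : ∀ j ∈ s, j ≠ a := fun j hj e => ha (e ▸ hj)
      refine ⟨Function.update h a g, ?_, ?_⟩
      · intro i hi
        rcases Finset.mem_insert.1 hi with rfl | hi
        · simpa using hg
        · rw [Function.update_of_ne (hne i hi)]
          exact h1 i hi
      · intro i hi j hj hij
        rcases Finset.mem_insert.1 hi with ei | hi'
        · rcases Finset.mem_insert.1 hj with ej | hj'
          · exact absurd (ei.trans ej.symm) hij
          · rw [ei, Function.update_self, Function.update_of_ne (hne j hj')]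
            exact hd' j hj'
        · rcases Finset.mem_insert.1 hj with ej | hj'
          · rw [ej, Function.update_self, Function.update_of_ne (hne i hi')]
            exact (hd' i hi').symm
          · rw [Function.update_of_ne (hne i hi'), Function.update_of_ne (hne j hj')]
            exact h2 i hi' j hj' hij
  obtain ⟨h, h1, h2⟩ := key Finset.univ
  exact ⟨h, fun i => h1 i (Finset.mem_univ i), fun i j => h2 i (Finset.mem_univ i) j (Finset.mem_univ j)⟩

theorem PIN_cop (H : Polynomial ℂ) (z : ℂ) (hz : H.eval z = 1) : IsCoprime (X - C z) H := by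
  obtain ⟨Q, hQ⟩ := Polynomial.X_sub_C_dvd_sub_C_eval (p := H) (a := z)
  refine ⟨-Q, 1, ?_⟩
  rw [hz] at hQ
  have : (C (1 : ℂ)) = 1 := C_1
  rw [this] at hQ
  linear_combination hQ

/-- the pencil lemma -/
theorem PIN_pencil (m : ℕ) (hm : 1 ≤ m) (H G : Polynomial ℂ) (hH : H.degree < m) (hG : G.natDegree = m)
    (hcop : IsCoprime G H) (Z : Finset ℂ) :
    ∃ a : ℂ, (H + C a * G).natDegree = m ∧ (H + C a * G).roots.toFinset.card = m ∧
      Disjoint (H + C a * G).roots.toFinset Z := by
  have hG0 : G ≠ 0 := by
    rintro rfl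
    simp at hG
    omega
  have hGd : G.degree = m := by
    rw [Polynomial.degree_eq_natDegree hG0, hG]
  have hW : H * derivative G - derivative H * G ≠ 0 := by
    intro h0
    have h1 : G ∣ H * derivative G := ⟨derivative H, by linear_combination h0⟩
    have h2 : G ∣ derivative G := hcop.dvd_of_dvd_mul_left h1
    have h3 : derivative G = 0 := by
      by_contra hne
      have := Polynomial.natDegree_le_of_dvd h2 hne
      have h4 := Polynomial.natDegree_derivative_lt (p := G) (by omega)
      omega
    have h5 := Polynomial.derivative_eq_zero.1 h3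
    omega
  set W := H * derivative G - derivative H * G with hWdef
  let bad : Finset ℂ := insert 0 ((Z ∪ W.roots.toFinset).image fun z => -H.eval z / G.eval z)
  obtain ⟨a, ha⟩ := Infinite.exists_notMem_finset bad
  have ha0 : a ≠ 0 := by
    rintro rfl
    exact ha (Finset.mem_insert_self _ _)
  have hdeg : (H + C a * G).degree = m := by
    rw [Polynomial.degree_add_eq_right_of_degree_lt]
    · rw [Polynomial.degree_C_mul ha0, hGd]
    · rw [Polynomial.degree_C_mul ha0, hGd]
      exact hH
  have hne : H + C a * G ≠ 0 := by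
    intro h0
    rw [h0] at hdeg
    simp at hdeg
  have hnat : (H + C a * G).natDegree = m := Polynomial.natDegree_eq_of_degree_eq_some hdeg
  have hroot : ∀ z, (H + C a * G).eval z = 0 → G.eval z ≠ 0 ∧ a = -H.eval z / G.eval z := by
    intro z hz
    rw [Polynomial.eval_add, Polynomial.eval_mul, Polynomial.eval_C] at hz
    have hGz : G.eval z ≠ 0 := by
      intro hGz
      obtain ⟨u, v, huv⟩ := hcop
      have hHz : H.eval z = 0 := by
        rw [hGz] at hz
        simpa using hz
      have := congrArg (Polynomial.eval z) huv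
      simp [hGz, hHz] at this
    refine ⟨hGz, ?_⟩
    rw [eq_div_iff hGz]
    linear_combination hz
  have hnd : (H + C a * G).roots.Nodup := by
    rw [Multiset.nodup_iff_count_le_one]
    intro z
    rw [Polynomial.count_roots]
    by_contra hlt
    push Not at hlt
    obtain ⟨h1, h2⟩ := (Polynomial.one_lt_rootMultiplicity_iff_isRoot hne).1 hlt
    have h1' : (H + C a * G).eval z = 0 := h1
    have h2' : (derivative (H + C a * G)).eval z = 0 := h2
    obtain ⟨hGz, hav⟩ := hroot z h1'
    have hWz : W.eval z = 0 := by
      simp only [hWdef, Polynomial.eval_sub, Polynomial.eval_mul]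
      simp only [Polynomial.eval_add, Polynomial.eval_mul, Polynomial.eval_C, Polynomial.derivative_add,
        Polynomial.derivative_mul, Polynomial.derivative_C, zero_mul, zero_add] at h1' h2'
      linear_combination (eval z (derivative G)) * h1' - (eval z G) * h2'
    apply ha
    refine Finset.mem_insert_of_mem (Finset.mem_image.2 ⟨z, ?_, hav.symm⟩)
    refine Finset.mem_union_right _ ?_
    rw [Multiset.mem_toFinset, Polynomial.mem_roots hW]
    exact hWz
  refine ⟨a, hnat, ?_, ?_⟩
  · rw [Multiset.toFinset_card_of_nodup hnd]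
    rw [← hnat]
    exact (Polynomial.splits_iff_card_roots.1 (IsAlgClosed.splits _))
  · rw [Finset.disjoint_left]
    intro z hz hzZ
    rw [Multiset.mem_toFinset, Polynomial.mem_roots hne] at hz
    obtain ⟨hGz, hav⟩ := hroot z hz
    exact ha (Finset.mem_insert_of_mem (Finset.mem_image.2 ⟨z, Finset.mem_union_left _ hzZ, hav.symm⟩))

theorem PIN_one (r m : ℕ) (t : Fin r → ℂ) (β : Fin r → ℂ) (ht : Function.Injective t) (hrm : 2 * r < m)
    (Z : Finset ℂ) : ∃ h : Polynomial ℂ, ((h.natDegree = m ∧ h.roots.toFinset.card = m) ∧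
      ∀ l, h.eval (t l) = 1 ∧ (derivative h).eval (t l) = β l) ∧ Disjoint h.roots.toFinset Z := by
  obtain ⟨b, hb⟩ := Infinite.exists_notMem_finset (Finset.univ.image t)
  have hbt : ∀ l, t l ≠ b := fun l e => hb (Finset.mem_image.2 ⟨l, Finset.mem_univ l, e⟩)
  let P : Polynomial ℂ := ∏ l, (X - C (t l))
  have hPmon : P.Monic := Polynomial.monic_prod_of_monic _ _ fun l _ => Polynomial.monic_X_sub_C (t l)
  have hPdeg : P.natDegree = r := by
    have := Polynomial.natDegree_prod_of_monic (Finset.univ : Finset (Fin r)) (fun l => X - C (t l))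
      (fun l _ => Polynomial.monic_X_sub_C (t l))
    rw [show P.natDegree = (∏ l, (X - C (t l))).natDegree from rfl, this]
    simp
  have hPt : ∀ l, P.eval (t l) = 0 := by
    intro l
    rw [show P = ∏ l, (X - C (t l)) from rfl, Polynomial.eval_prod]
    exact Finset.prod_eq_zero (Finset.mem_univ l) (by simp)
  have hP' : ∀ l, (derivative P).eval (t l) ≠ 0 := by
    intro l
    rw [show P = ∏ l, (X - C (t l)) from rfl, ← Finset.mul_prod_erase Finset.univ _ (Finset.mem_univ l),
      Polynomial.derivative_mul]
    simp only [Polynomial.derivative_sub, Polynomial.derivative_X, Polynomial.derivative_C, sub_zero, one_mul,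
      Polynomial.eval_add, Polynomial.eval_mul, Polynomial.eval_sub, Polynomial.eval_X, Polynomial.eval_C,
      sub_self, zero_mul, add_zero]
    rw [Polynomial.eval_prod, Finset.prod_ne_zero_iff]
    intro j hj
    simp only [Polynomial.eval_sub, Polynomial.eval_X, Polynomial.eval_C]
    intro e
    exact (Finset.ne_of_mem_erase hj) (ht (sub_eq_zero.1 e)).symm
  let M : Polynomial ℂ := Lagrange.interpolate Finset.univ t
    (fun l => β l / ((t l - b) * (derivative P).eval (t l)))
  have hMdeg : M.degree < (r : WithBot ℕ) := by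
    have := Lagrange.degree_interpolate_lt (s := Finset.univ) (v := t)
      (fun l => β l / ((t l - b) * (derivative P).eval (t l))) ht.injOn
    rw [Finset.card_univ, Fintype.card_fin] at this
    exact this
  have hMt : ∀ l, M.eval (t l) = β l / ((t l - b) * (derivative P).eval (t l)) := by
    intro l
    exact Lagrange.eval_interpolate_at_node (s := Finset.univ) (v := t) _ ht.injOn (Finset.mem_univ l)
  let H : Polynomial ℂ := 1 + (X - C b) * (P * M)
  have hHb : H.eval b = 1 := by
    simp [H]
  have hHt : ∀ l, H.eval (t l) = 1 := by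
    intro l
    simp [H, hPt l]
  have hH't : ∀ l, (derivative H).eval (t l) = β l := by
    intro l
    have h1 : t l - b ≠ 0 := sub_ne_zero.2 (hbt l)
    simp only [H, Polynomial.derivative_add, Polynomial.derivative_one, zero_add, Polynomial.derivative_mul,
      Polynomial.derivative_sub, Polynomial.derivative_X, Polynomial.derivative_C, sub_zero, one_mul,
      Polynomial.eval_add, Polynomial.eval_mul, Polynomial.eval_sub, Polynomial.eval_X, Polynomial.eval_C,
      hPt l, zero_mul, add_zero, hMt l]
    have h2 := hP' l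
    field_simp
  have hHdeg : H.degree < (m : WithBot ℕ) := by
    have h1 : ((X - C b) * (P * M)).degree < (m : WithBot ℕ) := by
      by_cases hM : M = 0
      · rw [hM]
        simp
      · have hP0 : P ≠ 0 := hPmon.ne_zero
        have hMn : M.natDegree < r := (Polynomial.natDegree_lt_iff_degree_lt hM).2 hMdeg
        have hne : (X - C b) * (P * M) ≠ 0 :=
          mul_ne_zero (Polynomial.X_sub_C_ne_zero b) (mul_ne_zero hP0 hM)
        rw [← Polynomial.natDegree_lt_iff_degree_lt hne,
          Polynomial.natDegree_mul (Polynomial.X_sub_C_ne_zero b) (mul_ne_zero hP0 hM),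
          Polynomial.natDegree_mul hP0 hM, Polynomial.natDegree_X_sub_C, hPdeg]
        omega
    have h0 : (1 : Polynomial ℂ).degree < (m : WithBot ℕ) := by
      rw [Polynomial.degree_one]
      exact_mod_cast (by omega : 0 < m)
    exact lt_of_le_of_lt (Polynomial.degree_add_le _ _) (max_lt h0 h1)
  let G : Polynomial ℂ := (X - C b) ^ (m - 2 * r) * P ^ 2
  have hGdeg : G.natDegree = m := by
    have h1 : ((X - C b) ^ (m - 2 * r)).Monic := (Polynomial.monic_X_sub_C b).pow _
    rw [show G = (X - C b) ^ (m - 2 * r) * P ^ 2 from rfl, h1.natDegree_mul (hPmon.pow 2),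
      (Polynomial.monic_X_sub_C b).natDegree_pow, hPmon.natDegree_pow, hPdeg, Polynomial.natDegree_X_sub_C]
    omega
  have hGt : ∀ l, G.eval (t l) = 0 ∧ (derivative G).eval (t l) = 0 := by
    intro l
    constructor
    · simp [G, hPt l]
    · simp [G, hPt l, Polynomial.derivative_mul, Polynomial.derivative_pow]
  have hcop : IsCoprime G H := by
    refine IsCoprime.mul_left (IsCoprime.pow_left (PIN_cop H b hHb)) (IsCoprime.pow_left ?_)
    exact IsCoprime.prod_left fun l _ => PIN_cop H (t l) (hHt l)
  obtain ⟨a, h1, h2, h3⟩ := PIN_pencil m (by omega) H G hHdeg hGdeg hcop Z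
  refine ⟨H + C a * G, ⟨⟨h1, h2⟩, fun l => ⟨?_, ?_⟩⟩, h3⟩
  · simp [hHt l, (hGt l).1]
  · simp [hH't l, (hGt l).2]

theorem PIN : PIN_stmt := by
  intro I _ _ r m t β ht hrm
  obtain ⟨h, h1, h2⟩ := PIN_choose I (fun i h => (h.natDegree = m ∧ h.roots.toFinset.card = m) ∧
      ∀ l, h.eval (t l) = 1 ∧ (derivative h).eval (t l) = β i l)
    (fun i Z => PIN_one r m t (β i) ht hrm Z)
  exact ⟨h, fun i => (h1 i).1, h2, fun i l => (h1 i).2 l⟩

end Pool.Agent.SV
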